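import Mathlib
import Pool.Agent.V11180.Delsarte

/-!
# MP_e73581_co: additive MRD codes need not be nested

There is an additive MRD code of `4 × 4` matrices over the field with two elements with minimum
distance `2` which contains no additive MRD code with minimum distance `3`.
-/

set_option autoImplicit false

open Module Matrix

namespace Pool.Agent.Results.MP_e73581_co.NotNested

open Pool.Agent.V11180.Delsarte

/-- `C` is an additive MRD code with minimum distance `d`: the least rank of a difference of two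
distinct elements of `C` is `d`, and `C` has `q ^ (n (n - d + 1))` elements. -/
def IsAdditiveMRD {F : Type} [Field F] [Fintype F] {n : ℕ}
    (C : AddSubgroup (Matrix (Fin n) (Fin n) F)) (d : ℕ) : Prop :=
  (∃ A ∈ C, ∃ B ∈ C, A ≠ B ∧ (A - B).rank = d) ∧
  (∀ A ∈ C, ∀ B ∈ C, A ≠ B → d ≤ (A - B).rank) ∧
  Nat.card C = Fintype.card F ^ (n * (n - d + 1))

/-! ### Coding of matrices by natural numbers -/

def tz (b : Bool) : ZMod 2 := if b then 1 else 0

lemma tz_xor (a b : Bool) : tz (a ^^ b) = tz a + tz b := by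
  revert a b; decide

lemma tz_and (a b : Bool) : tz (a && b) = tz a * tz b := by
  revert a b; decide

lemma tz_eq_zero (a : Bool) : tz a = 0 ↔ a = false := by
  revert a; decide

/-- the matrix coded by a number -/
def mt (m : ℕ) : Matrix (Fin 4) (Fin 4) (ZMod 2) := fun i j => tz (m.testBit (4 * i + j))

/-- the vector coded by a number -/
def vc (u : ℕ) : Fin 4 → ZMod 2 := fun i => tz (u.testBit i)

lemma mt_xor (a b : ℕ) : mt (a ^^^ b) = mt a + mt b := by
  ext i j
  simp only [mt, Matrix.add_apply, Nat.testBit_xor]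
  rw [← tz_xor]

lemma mt_zero : mt 0 = 0 := by
  ext i j
  simp [mt, tz]

/-- one coordinate of the product of a vector and a matrix -/
def co (y u j : ℕ) : Bool :=
  ((u.testBit 0 && y.testBit j) ^^ (u.testBit 1 && y.testBit (4 + j))) ^^
    ((u.testBit 2 && y.testBit (8 + j)) ^^ (u.testBit 3 && y.testBit (12 + j)))

lemma vecMul_apply (y u : ℕ) (j : Fin 4) : (vc u ᵥ* mt y) j = tz (co y u j) := by
  rw [Matrix.vecMul, dotProduct, Fin.sum_univ_four, co, tz_xor, tz_xor, tz_xor, tz_and, tz_and,
    tz_and, tz_and]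
  simp only [vc, mt]
  norm_num
  ring

/-- `u` is in the left kernel of the matrix coded by `y` -/
def chk (y u : ℕ) : Bool := !(co y u 0) && !(co y u 1) && !(co y u 2) && !(co y u 3)

lemma chk_iff (y u : ℕ) : chk y u = true ↔ vc u ᵥ* mt y = 0 := by
  constructor
  · intro h
    simp only [chk, Bool.and_eq_true, Bool.not_eq_true'] at h
    obtain ⟨⟨⟨h0, h1⟩, h2⟩, h3⟩ := h
    ext j
    rw [vecMul_apply, Pi.zero_apply, tz_eq_zero]
    fin_cases j
    · exact h0
    · exact h1
    · exact h2
    · exact h3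
  · intro h
    have h' : ∀ j : Fin 4, co y u j = false := by
      intro j
      rw [← tz_eq_zero, ← vecMul_apply, h]
      rfl
    simp only [chk, Bool.and_eq_true, Bool.not_eq_true']
    exact ⟨⟨⟨h' 0, h' 1⟩, h' 2⟩, h' 3⟩

/-- every vector has a code -/
lemma exists_vc (v : Fin 4 → ZMod 2) : ∃ u : Fin 16, vc u = v := by
  revert v
  decide +kernel

lemma vc_injective : ∀ u v : Fin 16, vc u = vc v → u = v := by decide +kernel

lemma vc_zero : vc 0 = 0 := by
  ext i
  simp [vc, tz]

lemma rank_eq_four (y : ℕ) (h : ∀ u : Fin 16, u ≠ 0 → chk y u = false) : (mt y).rank = 4 := by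
  rw [← Matrix.rank_transpose]
  have h1 : LinearMap.ker ((mt y)ᵀ).mulVecLin = ⊥ := by
    rw [LinearMap.ker_eq_bot']
    intro v hv
    obtain ⟨u, rfl⟩ := exists_vc v
    by_contra hne
    have hu : u ≠ 0 := by
      rintro rfl
      exact hne vc_zero
    have h2 := h u hu
    rw [Matrix.mulVecLin_apply, Matrix.mulVec_transpose, ← chk_iff] at hv
    rw [hv] at h2
    exact Bool.noConfusion h2
  have h3 := LinearMap.finrank_range_add_finrank_ker ((mt y)ᵀ).mulVecLin
  rw [h1, finrank_bot, finrank_fin_fun] at h3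
  exact h3

lemma rank_le_two (y : ℕ) (u v : Fin 16) (hu : u ≠ 0) (hv : v ≠ 0) (huv : u ≠ v)
    (h1 : chk y u = true) (h2 : chk y v = true) : (mt y).rank ≤ 2 := by
  rw [← Matrix.rank_transpose]
  have hu' : vc u ∈ LinearMap.ker ((mt y)ᵀ).mulVecLin := by
    rw [LinearMap.mem_ker, Matrix.mulVecLin_apply, Matrix.mulVec_transpose]
    exact (chk_iff _ _).1 h1
  have hv' : vc v ∈ LinearMap.ker ((mt y)ᵀ).mulVecLin := by
    rw [LinearMap.mem_ker, Matrix.mulVecLin_apply, Matrix.mulVec_transpose]
    exact (chk_iff _ _).1 h2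
  have h3 := LinearMap.finrank_range_add_finrank_ker ((mt y)ᵀ).mulVecLin
  rw [finrank_fin_fun] at h3
  have h4 : 2 ≤ finrank (ZMod 2) (LinearMap.ker ((mt y)ᵀ).mulVecLin) := by
    by_contra hcon
    have h5 : Nat.card (LinearMap.ker ((mt y)ᵀ).mulVecLin) ≤ 2 := by
      rw [Module.natCard_eq_pow_finrank (K := ZMod 2), Nat.card_zmod]
      calc 2 ^ _ ≤ 2 ^ 1 := Nat.pow_le_pow_right (by norm_num) (by omega)
        _ = 2 := by norm_num
    have : Fintype (LinearMap.ker ((mt y)ᵀ).mulVecLin) := Fintype.ofFinite _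
    rw [Nat.card_eq_fintype_card] at h5
    have h6 : 2 < Fintype.card (LinearMap.ker ((mt y)ᵀ).mulVecLin) := by
      rw [Fintype.two_lt_card_iff]
      refine ⟨0, ⟨vc u, hu'⟩, ⟨vc v, hv'⟩, ?_, ?_, ?_⟩
      · intro h
        have h7 : (0 : Fin 4 → ZMod 2) = vc u := congrArg Subtype.val h
        exact hu (vc_injective u 0 (h7.symm.trans vc_zero.symm))
      · intro h
        have h7 : (0 : Fin 4 → ZMod 2) = vc v := congrArg Subtype.val h
        exact hv (vc_injective v 0 (h7.symm.trans vc_zero.symm))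
      · intro h
        have := congrArg Subtype.val h
        exact huv (vc_injective u v this)
    omega
  change finrank (ZMod 2) (LinearMap.range ((mt y)ᵀ).mulVecLin) ≤ 2
  omega

/-! ### The spread set -/

/-- the elements of the spread set -/
def sc (k : ℕ) : ℕ :=
  ((if k.testBit 0 then 0x8421 else 0) ^^^ (if k.testBit 1 then 0xfea2 else 0)) ^^^
    ((if k.testBit 2 then 0x65b4 else 0) ^^^ (if k.testBit 3 then 0xd768 else 0))

lemma sc_rank : ∀ k : Fin 16, k ≠ 0 → ∀ u : Fin 16, u ≠ 0 → chk (sc k) u = false := by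
  decide +kernel

lemma sc_row : ∀ k : Fin 16, ∀ j : Fin 4, mt (sc k) 0 j = vc k j := by
  decide +kernel

lemma sc_closed : ∀ k l : Fin 16, ∃ m : Fin 16, sc k ^^^ sc l = sc m := by
  decide +kernel

/-- the table used in the covering argument -/
def tbl : ℕ := 0x610e10b63847d33847847d23847847847437427847a10210e10610d39c35b5c422c25432a5cb42877a42b75867a10210b5642b610e10a61b71a5694b53687743b837c31c21a1021096ba63e10610a71b6143e532877b5293ba52d31d21a10210b46c38a5dd35610e10d2596b436a7593b837b65b78a10210a6aa43b43c2ae10610b59423b6f867b7a83782797ba10210a4aa53b5342a53396b610e10c2e43a867837827877a10210857857857857857857e10610857857857537527857a1021097b438c39877867a48b79a5f610e1093b837827b48a10210d3452b877a74d2486795bb64e1061053b83782795ba1021043487797ba44a51b51a76b44d3696b610e10531521a1021087792bd2c535a41b4152586796ba55e10610431421a10210b76d3843952a97ba78a66877c36d28b5a837610e10a10210c3486742ca64c24d22877d32a4cb6293ba72e10610a10210c10c10c10c10c10c10c10c10c10c10c10c10c10c1061021041041041041041041041041041041041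0410410410410210610810810810810810810810810810810810810810810210810610810810810810810810810810810810810810810210810810610810810810810810810810810810810810810210810810810610810810810810810810810810810810810210810810810810610810810810810810810810810810810210810810810810810610810810810810810810810810810210810810810810810810610810810810810810810810810210810810810810810810810610810810810810810810810210810810810810810810810810610810810810810810810210810810810810810810810810810610810810810810810210810810810810810810810810810810610810810810810210810810810810810810810810810810810610810810810210810810810810810810810810810810810810610810810210810810810810810810810810810810810810810610810210810810810810810810810810810810810810810810610210410410410410410410410410410410410410410410410000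

def ent (i : ℕ) : ℕ := (tbl >>> (12 * i)) % 4096

/-- every matrix `16 i` is at distance at most two from the spread set -/
lemma covering : ∀ i : Fin 512, i ≠ 0 →
    (let e := ent i
     let k := e % 16
     let u := (e / 16) % 16
     let v := e / 256
     let y := (i.val <<< 4) ^^^ sc k
     decide (u ≠ 0) && decide (v ≠ 0) && decide (u ≠ v) && decide (v < 16) && chk y u && chk y v
      && decide (y % 65536 ≠ 0)) = true := by
  decide +kernel


/-! ### The two codes -/

/-- the spread set -/
def S : AddSubgroup (Matrix (Fin 4) (Fin 4) (ZMod 2)) where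
  carrier := Set.range (fun k : Fin 16 => mt (sc k))
  add_mem' := by
    rintro _ _ ⟨k, rfl⟩ ⟨l, rfl⟩
    obtain ⟨m, hm⟩ := sc_closed k l
    exact ⟨m, by rw [← mt_xor, hm]⟩
  zero_mem' := ⟨0, by simp [sc, mt_zero]⟩
  neg_mem' := by
    rintro _ ⟨k, rfl⟩
    refine ⟨k, ?_⟩
    have h : mt (sc k) + mt (sc k) = 0 := by rw [← mt_xor, Nat.xor_self, mt_zero]
    exact (neg_eq_of_add_eq_zero_left h).symm

lemma mem_S (k : Fin 16) : mt (sc k) ∈ S := ⟨k, rfl⟩

lemma card_S : Nat.card S = 2 ^ 4 := by
  have hinj : Function.Injective (fun k : Fin 16 => mt (sc k)) := by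
    intro k l h
    apply vc_injective
    ext j
    rw [← sc_row, ← sc_row]
    exact congrFun (congrFun h 0) j
  have h : Nat.card S = Nat.card (Set.range (fun k : Fin 16 => mt (sc k))) := rfl
  rw [h, Nat.card_range_of_injective hinj, Nat.card_eq_fintype_card, Fintype.card_fin]
  norm_num

/-- the pairing as a bilinear form -/
noncomputable def B : Matrix (Fin 4) (Fin 4) (ZMod 2) →ₗ[ZMod 2]
    Matrix (Fin 4) (Fin 4) (ZMod 2) →ₗ[ZMod 2] ZMod 2 :=
  LinearMap.mk₂ (ZMod 2) pair pair_add_left
    (by intro c X Y; simp [pair, Finset.mul_sum, mul_assoc])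
    pair_add_right
    (by intro c X Y; simp [pair, Finset.mul_sum, mul_left_comm])

/-- the map whose kernel is the code -/
noncomputable def Ψ : Matrix (Fin 4) (Fin 4) (ZMod 2) →ₗ[ZMod 2] (Fin 4 → ZMod 2) :=
  LinearMap.pi (fun j => B.flip (mt (sc (2 ^ j.val))))

lemma Ψ_apply (X : Matrix (Fin 4) (Fin 4) (ZMod 2)) (j : Fin 4) :
    Ψ X j = pair X (mt (sc (2 ^ j.val))) := rfl

/-- the code -/
noncomputable def C : AddSubgroup (Matrix (Fin 4) (Fin 4) (ZMod 2)) :=
  (LinearMap.ker Ψ).toAddSubgroup

lemma mem_C (X : Matrix (Fin 4) (Fin 4) (ZMod 2)) :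
    X ∈ C ↔ ∀ j : Fin 4, pair X (mt (sc (2 ^ j.val))) = 0 := by
  change Ψ X = 0 ↔ _
  rw [funext_iff]
  rfl

lemma tz_ite (c : Bool) (m : ℕ) (X : Matrix (Fin 4) (Fin 4) (ZMod 2))
    (h : pair X (mt m) = 0) : pair X (mt (if c then m else 0)) = 0 := by
  cases c
  · simp [mt_zero, pair]
  · simpa using h

lemma pair_sc {X : Matrix (Fin 4) (Fin 4) (ZMod 2)} (hX : X ∈ C) (k : ℕ) :
    pair X (mt (sc k)) = 0 := by
  rw [mem_C] at hX
  have h0 : pair X (mt 0x8421) = 0 := hX 0
  have h1 : pair X (mt 0xfea2) = 0 := hX 1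
  have h2 : pair X (mt 0x65b4) = 0 := hX 2
  have h3 : pair X (mt 0xd768) = 0 := hX 3
  rw [sc, mt_xor, mt_xor, mt_xor, pair_add_right, pair_add_right, pair_add_right,
    tz_ite _ _ _ h0, tz_ite _ _ _ h1, tz_ite _ _ _ h2, tz_ite _ _ _ h3]
  simp

lemma C_min {X : Matrix (Fin 4) (Fin 4) (ZMod 2)} (hX : X ∈ C) (hne : X ≠ 0) : 2 ≤ X.rank := by
  by_contra hcon
  apply hne
  apply eq_zero_of_rank_le (AddMonoidHom.id (ZMod 2)) (fun y h => by simpa using h 1) S 4
    (by norm_num) le_rfl ?_ (by rw [card_S]; simp) X ?_ (by omega)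
  · rintro _ ⟨k, rfl⟩ hk
    have hk0 : k ≠ 0 := by
      rintro rfl
      apply hk
      simp [sc, mt_zero]
    rw [rank_eq_four _ (sc_rank k hk0)]
  · rintro _ ⟨k, rfl⟩
    rw [AddMonoidHom.id_apply, pair_comm]
    exact pair_sc hX k

lemma card_C : Nat.card C = 2 ^ 12 := by
  have hsurj : Function.Surjective Ψ := by
    intro c
    refine ⟨fun i j => if i = 0 then c j else 0, ?_⟩
    ext j
    rw [Ψ_apply, pair, Fin.sum_univ_four]
    simp only [Fin.isValue, if_true]
    have h1 : ∀ i : Fin 4, mt (sc (2 ^ j.val)) 0 i = if i = j then 1 else 0 := by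
      revert j
      decide +kernel
    simp [h1]
  have h1 := LinearMap.finrank_range_add_finrank_ker Ψ
  rw [LinearMap.range_eq_top.2 hsurj, finrank_top, finrank_fin_fun, Module.finrank_matrix] at h1
  simp only [Fintype.card_fin, finrank_self] at h1
  have h2 : Nat.card C = Nat.card (LinearMap.ker Ψ) := rfl
  rw [h2, Module.natCard_eq_pow_finrank (K := ZMod 2), Nat.card_zmod]
  congr 1
  omega

lemma C_rank_two : mt 0x14 ∈ C ∧ (mt 0x14).rank = 2 := by
  have h1 : mt 0x14 ∈ C := by
    rw [mem_C]
    decide +kernel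
  have h2 : mt 0x14 ≠ 0 := by
    intro h
    have h3 := congrFun (congrFun h 1) 0
    exact absurd h3 (by decide +kernel)
  refine ⟨h1, le_antisymm ?_ (C_min h1 h2)⟩
  exact rank_le_two _ 4 8 (by decide) (by decide) (by decide) (by decide +kernel)
    (by decide +kernel)

/-! ### No additive MRD code with minimum distance three inside -/

lemma tz_decide (z : ZMod 2) : tz (decide (z = 1)) = z := by
  revert z; decide

lemma mt_ne_zero (y : ℕ) (h : y % 65536 ≠ 0) : mt y ≠ 0 := by
  intro hy
  apply h
  apply Nat.eq_of_testBit_eq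
  intro m
  rw [show 65536 = 2 ^ 16 by norm_num, Nat.testBit_mod_two_pow, Nat.zero_testBit]
  by_cases hm : m < 16
  · have h1 := congrFun (congrFun hy ⟨m / 4, by omega⟩) ⟨m % 4, by omega⟩
    simp only [mt, Matrix.zero_apply, tz_eq_zero] at h1
    rw [show 4 * (m / 4) + m % 4 = m by omega] at h1
    simp [h1]
  · simp [hm]

/-- the nine free positions -/
def bitsOf (x : Matrix (Fin 4) (Fin 4) (ZMod 2)) : Fin 9 → Bool := fun t =>
  decide (x ⟨(t.val + 4) / 4, by omega⟩ ⟨(t.val + 4) % 4, by omega⟩ = 1)

lemma exists_code (x : Matrix (Fin 4) (Fin 4) (ZMod 2)) (h0 : x 0 0 = 0) (h1 : x 0 1 = 0)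
    (h2 : x 0 2 = 0) (h3 : x 0 3 = 0) (h4 : x 3 1 = 0) (h5 : x 3 2 = 0) (h6 : x 3 3 = 0) :
    ∃ i : Fin 512, mt (i.val <<< 4) = x := by
  refine ⟨⟨Nat.ofBits (bitsOf x), ?_⟩, ?_⟩
  · have := Nat.ofBits_lt_two_pow (bitsOf x)
    simpa using this
  · have key : ∀ m (hm : m < 9), tz ((Nat.ofBits (bitsOf x)).testBit m) =
        x ⟨(m + 4) / 4, by omega⟩ ⟨(m + 4) % 4, by omega⟩ := by
      intro m hm
      rw [Nat.testBit_ofBits_lt (bitsOf x) m hm]
      exact tz_decide _
    have key2 : ∀ m, 9 ≤ m → tz ((Nat.ofBits (bitsOf x)).testBit m) = 0 := by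
      intro m hm
      rw [Nat.testBit_ofBits_ge (bitsOf x) m hm]
      rfl
    ext a b
    simp only [mt, Nat.testBit_shiftLeft]
    fin_cases a
    · have : ∀ b : Fin 4, x 0 b = 0 := by
        intro b
        fin_cases b <;> assumption
      rw [show ((⟨0, by norm_num⟩ : Fin 4)) = 0 from rfl, this]
      have hb : ¬ (4 * 0 + b.val ≥ 4) := by omega
      simp [tz]
    · have := key b.val (by omega)
      fin_cases b
      · exact key 0 (by norm_num)
      · exact key 1 (by norm_num)
      · exact key 2 (by norm_num)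
      · exact key 3 (by norm_num)
    · fin_cases b
      · exact key 4 (by norm_num)
      · exact key 5 (by norm_num)
      · exact key 6 (by norm_num)
      · exact key 7 (by norm_num)
    · fin_cases b
      · exact key 8 (by norm_num)
      · exact (key2 9 (by norm_num)).trans h4.symm
      · exact (key2 10 (by norm_num)).trans h5.symm
      · exact (key2 11 (by norm_num)).trans h6.symm

/-- **Additive MRD codes are not nested**: there is an additive MRD code of `4 × 4` matrices over
`ZMod 2` with minimum distance `2` that contains no additive MRD code with minimum distance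
`3`. -/
theorem result : ∃ C : AddSubgroup (Matrix (Fin 4) (Fin 4) (ZMod 2)),
    IsAdditiveMRD C 2 ∧
      ∀ C' : AddSubgroup (Matrix (Fin 4) (Fin 4) (ZMod 2)), C' ≤ C → ¬ IsAdditiveMRD C' 3 := by
  refine ⟨C, ⟨?_, ?_, ?_⟩, ?_⟩
  · refine ⟨mt 0x14, C_rank_two.1, 0, C.zero_mem, ?_, ?_⟩
    · intro h
      have := C_rank_two.2
      rw [h, Matrix.rank_zero] at this
      omega
    · rw [sub_zero]
      exact C_rank_two.2
  · intro X hX Y hY hne
    exact C_min (C.sub_mem hX hY) (sub_ne_zero.2 hne)
  · rw [card_C, ZMod.card]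
  · rintro C' hle ⟨-, hmin, hcard⟩
    rw [ZMod.card] at hcard
    norm_num at hcard
    have hmin' : ∀ X ∈ C', X ≠ 0 → 3 ≤ X.rank := by
      intro X hX hne
      have := hmin X hX 0 C'.zero_mem hne
      rwa [sub_zero] at this
    set N := AddSubgroup.toZModSubmodule 2 C' with hN
    have hfr : finrank (ZMod 2) N = 8 := by
      have h1 := Module.natCard_eq_pow_finrank (K := ZMod 2) (V := N)
      have h2 : Nat.card N = Nat.card C' := rfl
      rw [h2, hcard, Nat.card_zmod] at h1
      exact (Nat.pow_right_injective (le_refl 2) (by simpa using h1)).symm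
    let L1 : Matrix (Fin 4) (Fin 4) (ZMod 2) →ₗ[ZMod 2] (N →ₗ[ZMod 2] ZMod 2) :=
      (LinearMap.lcomp (ZMod 2) (ZMod 2) N.subtype).comp B.flip
    let L2 : Matrix (Fin 4) (Fin 4) (ZMod 2) →ₗ[ZMod 2] (Fin 7 → ZMod 2) :=
      { toFun := fun X => ![X 0 0, X 0 1, X 0 2, X 0 3, X 3 1, X 3 2, X 3 3]
        map_add' := by intro X Y; ext t; fin_cases t <;> rfl
        map_smul' := by intro c X; ext t; fin_cases t <;> rfl }
    have hker : LinearMap.ker (L1.prod L2) ≠ ⊥ := by
      apply LinearMap.ker_ne_bot_of_finrank_lt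
      rw [Module.finrank_prod, Module.finrank_linearMap, hfr, finrank_self, finrank_fin_fun,
        Module.finrank_matrix]
      simp
    obtain ⟨x, hx, hx0⟩ := (Submodule.ne_bot_iff _).1 hker
    rw [LinearMap.mem_ker, LinearMap.prod_apply, Prod.mk_eq_zero] at hx
    obtain ⟨hx1, hx2⟩ := hx
    have hD : ∀ X ∈ C', pair X x = 0 := by
      intro X hX
      have := DFunLike.congr_fun hx1 ⟨X, hX⟩
      exact this
    obtain ⟨i, hi⟩ := exists_code x (congrFun hx2 0) (congrFun hx2 1) (congrFun hx2 2)
      (congrFun hx2 3) (congrFun hx2 4) (congrFun hx2 5) (congrFun hx2 6)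
    have hi0 : i ≠ 0 := by
      rintro rfl
      apply hx0
      rw [← hi]
      exact mt_zero
    have hcov := covering i hi0
    simp only [Bool.and_eq_true, decide_eq_true_eq] at hcov
    obtain ⟨⟨⟨⟨⟨⟨hu, hv⟩, huv⟩, hv16⟩, hc1⟩, hc2⟩, hne⟩ := hcov
    set e := ent i
    set y := (i.val <<< 4) ^^^ sc (e % 16) with hy
    have hy0 : mt y = 0 := by
      apply eq_zero_of_rank_le (AddMonoidHom.id (ZMod 2)) (fun y h => by simpa using h 1) C' 3
        (by norm_num) (by norm_num) hmin' (by rw [hcard, ZMod.card]; norm_num) (mt y) ?_ ?_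
      · intro X hX
        rw [AddMonoidHom.id_apply, hy, mt_xor, pair_add_right, hi, hD X hX, pair_sc (hle hX)]
        simp
      · exact rank_le_two y ⟨(e / 16) % 16, by omega⟩ ⟨e / 256, hv16⟩
          (fun h => hu (congrArg Fin.val h)) (fun h => hv (congrArg Fin.val h))
          (fun h => huv (congrArg Fin.val h)) hc1 hc2
    exact mt_ne_zero y hne hy0

end Pool.Agent.Results.MP_e73581_co.NotNested
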